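import Pool.Agent.Helper15.UL.GoalsE

/-! # MP_57a173_lc, packet C1: case 1 of the dichotomy -/

noncomputable section

namespace UL.PkC1

open UL Pool.Agent.Helper97.Ku NU

section Local

variable {L : Type} [CompleteBooleanAlgebra L]

theorem eq_iSup {ι : Sort*} {b : L} {f g : ι → L} (h : ∀ k, b ⊓ f k = b ⊓ g k) :
    b ⊓ (⨆ k, f k) = b ⊓ ⨆ k, g k := by
  rw [inf_iSup_eq, inf_iSup_eq]
  exact iSup_congr h

theorem eq_compl {b x y : L} (h : b ⊓ x = b ⊓ y) : b ⊓ xᶜ = b ⊓ yᶜ := by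
  rw [← sdiff_eq, ← sdiff_eq, ← sdiff_inf_self_left b x, ← sdiff_inf_self_left b y, h]

theorem eq_inf {b x y z : L} (h : b ⊓ x = b ⊓ y) : b ⊓ (x ⊓ z) = b ⊓ (y ⊓ z) := by
  rw [← inf_assoc, ← inf_assoc, h]

theorem eq_opV {b : L} {q q' : List Bool → L} (r : ℕ → L) (h : ∀ σ, b ⊓ q σ = b ⊓ q' σ) :
    b ⊓ opV q r = b ⊓ opV q' r := eq_iSup fun σ => eq_inf (h σ)

theorem le_iffV {b A C C' : L} (h : b ⊓ C = b ⊓ C') : b ⊓ iffV A C ≤ iffV A C' := by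
  unfold iffV
  refine le_inf ?_ ?_
  · rw [le_himp_iff]
    calc b ⊓ ((A ⇨ C) ⊓ (C ⇨ A)) ⊓ A ≤ b ⊓ C := by
          refine le_inf (inf_le_left.trans inf_le_left) ?_
          calc b ⊓ ((A ⇨ C) ⊓ (C ⇨ A)) ⊓ A ≤ (A ⇨ C) ⊓ A :=
                inf_le_inf_right _ (inf_le_right.trans inf_le_left)
            _ ≤ C := himp_inf_le
      _ = b ⊓ C' := h
      _ ≤ C' := inf_le_right
  · rw [le_himp_iff]
    calc b ⊓ ((A ⇨ C) ⊓ (C ⇨ A)) ⊓ C' ≤ (C ⇨ A) ⊓ C := by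
          refine le_inf (inf_le_left.trans (inf_le_right.trans inf_le_right)) ?_
          calc b ⊓ ((A ⇨ C) ⊓ (C ⇨ A)) ⊓ C' ≤ b ⊓ C' :=
                inf_le_inf_right _ inf_le_left
            _ = b ⊓ C := h.symm
            _ ≤ C := inf_le_right
      _ ≤ A := himp_inf_le

theorem le_himp {b d x y : L} (h : b ⊓ x ≤ y) : b ⊓ (d ⇨ x) ≤ (d ⇨ y) := by
  rw [le_himp_iff]
  calc b ⊓ (d ⇨ x) ⊓ d ≤ b ⊓ x := by
        refine le_inf (inf_le_left.trans inf_le_left) ?_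
        exact (inf_le_inf_right _ inf_le_right).trans himp_inf_le
    _ ≤ y := h

end Local

theorem thm : UL.G_C1L → UL.G_MIX → UL.G_C1 := by
  intro hC hM I _ _ hHF hO ι B r b α hb q
  let F : ι → (ℕ × List Bool → BA I) → BA I :=
    fun i q' => (b ⊓ B i) ⇨ iffV (⨅ n, opV (q n) (r i))
      (⨆ n, (opV (fun σ => q' (n, σ)) (r i))ᶜ)
  have h1 : ∀ i q₁ q₂ b₁, (∀ k, b₁ ⊓ q₁ k = b₁ ⊓ q₂ k) → b₁ ⊓ F i q₁ ≤ F i q₂ := by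
    intro i q₁ q₂ b₁ h
    exact le_himp (le_iffV (eq_iSup fun n => eq_compl (eq_opV (r i) fun σ => h (n, σ))))
  have h2 : ∀ b₀ : BA I, b₀ ≠ ⊥ → ∃ b', b' ≤ b₀ ∧ b' ≠ ⊥ ∧ ∃ q₁, ∀ i, b' ≤ F i q₁ := by
    intro b₀ hb₀
    obtain ⟨f, hf⟩ := Fc.ne_bot_iff.1 hb₀
    obtain ⟨g, hg, q', H⟩ := hC I hHF hO α q f hf.isM
    refine ⟨pr (f ∘ g), pr_le (hf.comp hg), pr_ne_bot (hf.isM.comp hg), fun k => q' k.1 k.2,
      fun i => ?_⟩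
    refine pr_le (Fc.himp_iff.2 ⟨hf.isM.comp hg, fun χ hχ hχa => ?_⟩)
    have hInn : Fc ((f ∘ g) ∘ χ) (Inn α (r i)) :=
      hχa.mono ((inf_le_inf_right _ (hb i)).trans himp_inf_le)
    refine Fc.dense hχa.isM fun g' hg' => ?_
    obtain ⟨χ', hχ', x, hx, hD⟩ := Inn.exists (hInn.comp hg')
    obtain ⟨θ, hθ, hF⟩ := H (χ ∘ g' ∘ χ') (hχ.comp (hg'.comp hχ')) x hx (r i) hD
    exact ⟨χ' ∘ θ, hχ'.comp hθ, hF⟩
  obtain ⟨q', hq'⟩ := hM (BA I) (ℕ × List Bool) ι F h1 h2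
  refine ⟨fun n σ => q' (n, σ), fun i => ?_⟩
  exact himp_eq_top_iff.1 (hq' i)

end UL.PkC1
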